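import Pool.Agent.helper43.BMH.Spec

set_option autoImplicit false

/-!
# MP_cef0b4_gt, row bmh:HYB (Hausdorff-Young inequality, bilinear form)
-/

namespace Pool.Agent.helper43.BMH

open Complex Complex.HadamardThreeLines

/-- the sign -/
noncomputable def HYB_sg (x : ℝ) : ℝ := if 0 ≤ x then 1 else -1

theorem HYB_sg_mul (x : ℝ) : HYB_sg x * |x| = x := by
  unfold HYB_sg
  split_ifs with h
  · rw [abs_of_nonneg h, one_mul]
  · rw [abs_of_neg (not_le.1 h)]
    ring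

theorem HYB_sg_norm (x : ℝ) : ‖((HYB_sg x : ℝ) : ℂ)‖ = 1 := by
  unfold HYB_sg
  split_ifs <;> simp

/-- the bilinear form -/
noncomputable def HYB_B {d : ℕ} (H : Matrix (Fin d) (Fin d) ℝ) (u v : Fin d → ℂ) : ℂ :=
  ∑ i, u i * ∑ j, (H i j : ℂ) * v j

theorem HYB_one {d : ℕ} {H : Matrix (Fin d) (Fin d) ℝ} (hH : ∀ i j, H i j = 1 ∨ H i j = -1)
    (u v : Fin d → ℂ) : ‖HYB_B H u v‖ ≤ (∑ i, ‖u i‖) * ∑ j, ‖v j‖ := by
  unfold HYB_B
  rw [Finset.sum_mul]
  refine (norm_sum_le _ _).trans (Finset.sum_le_sum fun i _ => ?_)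
  rw [norm_mul]
  refine mul_le_mul_of_nonneg_left ?_ (norm_nonneg _)
  refine (norm_sum_le _ _).trans (Finset.sum_le_sum fun j _ => ?_)
  rw [norm_mul]
  have : ‖((H i j : ℝ) : ℂ)‖ = 1 := by
    rcases hH i j with h | h <;> rw [h] <;> simp
  rw [this, one_mul]

theorem HYB_two (hHDN : HDN) {d : ℕ} {H : Matrix (Fin d) (Fin d) ℝ} (hH : IsHad H)
    (u v : Fin d → ℂ) (hu : ∑ i, ‖u i‖ ^ 2 ≤ 1) (hv : ∑ j, ‖v j‖ ^ 2 ≤ 1) :
    ‖HYB_B H u v‖ ≤ Real.sqrt d := by
  have h1 := (hHDN (Fin d) H hH).2.2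
  rw [Fintype.card_fin] at h1
  -- the norm of `H v`
  have h2 : ∑ i, ‖∑ j, (H i j : ℂ) * v j‖ ^ 2 = (d : ℝ) * ∑ j, ‖v j‖ ^ 2 := by
    have e1 : ∀ i, ‖∑ j, (H i j : ℂ) * v j‖ ^ 2 =
        (H.mulVec (fun j => (v j).re) i) ^ 2 + (H.mulVec (fun j => (v j).im) i) ^ 2 := by
      intro i
      rw [Complex.sq_norm, Complex.normSq_apply]
      have r1 : (∑ j, (H i j : ℂ) * v j).re = H.mulVec (fun j => (v j).re) i := by
        rw [Complex.re_sum]
        show _ = ∑ j, H i j * (v j).re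
        apply Finset.sum_congr rfl
        intro j _
        simp
      have r2 : (∑ j, (H i j : ℂ) * v j).im = H.mulVec (fun j => (v j).im) i := by
        rw [Complex.im_sum]
        show _ = ∑ j, H i j * (v j).im
        apply Finset.sum_congr rfl
        intro j _
        simp
      rw [r1, r2]
      ring
    rw [Finset.sum_congr rfl (fun i _ => e1 i), Finset.sum_add_distrib, h1, h1, ← mul_add,
      ← Finset.sum_add_distrib]
    congr 1
    apply Finset.sum_congr rfl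
    intro j _
    rw [Complex.sq_norm, Complex.normSq_apply]
    ring
  have h3 : ‖HYB_B H u v‖ ≤ ∑ i, ‖u i‖ * ‖∑ j, (H i j : ℂ) * v j‖ := by
    unfold HYB_B
    refine (norm_sum_le _ _).trans (Finset.sum_le_sum fun i _ => ?_)
    rw [norm_mul]
  have h4 := Finset.sum_mul_sq_le_sq_mul_sq Finset.univ (fun i => ‖u i‖)
    (fun i => ‖∑ j, (H i j : ℂ) * v j‖)
  rw [h2] at h4
  apply Real.le_sqrt_of_sq_le
  have hd : (0 : ℝ) ≤ d := Nat.cast_nonneg d
  have h5 : (∑ i, ‖u i‖ * ‖∑ j, (H i j : ℂ) * v j‖) ^ 2 ≤ d := by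
    refine h4.trans ?_
    calc (∑ i, ‖u i‖ ^ 2) * ((d : ℝ) * ∑ j, ‖v j‖ ^ 2) ≤ 1 * ((d : ℝ) * 1) :=
          mul_le_mul hu (mul_le_mul_of_nonneg_left hv hd)
            (mul_nonneg hd (Finset.sum_nonneg fun j _ => sq_nonneg _)) zero_le_one
      _ = d := by ring
  exact (pow_le_pow_left₀ (norm_nonneg _) h3 2).trans h5

/-- the analytic family -/
noncomputable def HYB_F {d : ℕ} (H : Matrix (Fin d) (Fin d) ℝ) (σ τ X Y : Fin d → ℝ) (z : ℂ) : ℂ :=
  HYB_B H (fun i => (σ i : ℂ) * (Y i : ℂ) ^ z) (fun j => (τ j : ℂ) * (X j : ℂ) ^ z)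

theorem HYB_diff {d : ℕ} (H : Matrix (Fin d) (Fin d) ℝ) (σ τ X Y : Fin d → ℝ) {z : ℂ}
    (hz : z ≠ 0) : DifferentiableAt ℂ (HYB_F H σ τ X Y) z := by
  have h : ∀ x : ℝ, DifferentiableAt ℂ (fun w : ℂ => (x : ℂ) ^ w) z := fun x =>
    DifferentiableAt.const_cpow differentiableAt_id (Or.inr hz)
  unfold HYB_F HYB_B
  refine DifferentiableAt.fun_sum fun i _ => ?_
  refine ((h (Y i)).const_mul _).mul ?_
  refine DifferentiableAt.fun_sum fun j _ => ?_
  exact ((h (X j)).const_mul _).const_mul _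

theorem HYB_interp (hHDN : HDN) {d : ℕ} {H : Matrix (Fin d) (Fin d) ℝ} (hH : IsHad H)
    {σ τ X Y : Fin d → ℝ} (hσ : ∀ i, ‖(σ i : ℂ)‖ = 1) (hτ : ∀ i, ‖(τ i : ℂ)‖ = 1)
    (hX0 : ∀ i, 0 ≤ X i) (hY0 : ∀ i, 0 ≤ Y i) (hX : ∑ i, X i = 1) (hY : ∑ i, Y i = 1)
    {s : ℝ} (hs : 1 / 2 ≤ s) (hs1 : s ≤ 1) :
    ‖HYB_F H σ τ X Y (s : ℂ)‖ ≤ (d : ℝ) ^ (1 - s) := by
  have hX1 : ∀ i, X i ≤ 1 := fun i => by
    rw [← hX]
    exact Finset.single_le_sum (fun j _ => hX0 j) (Finset.mem_univ i)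
  have hY1 : ∀ i, Y i ≤ 1 := fun i => by
    rw [← hY]
    exact Finset.single_le_sum (fun j _ => hY0 j) (Finset.mem_univ i)
  have hne : ∀ z : ℂ, z ∈ verticalClosedStrip (1 / 2) 1 → z ≠ 0 := by
    intro z hz h0
    rw [h0] at hz
    have := hz.1
    simp only [zero_re] at this
    norm_num at this
  have key := norm_le_interp_of_mem_verticalClosedStrip' (f := HYB_F H σ τ X Y) (z := (s : ℂ))
    (a := Real.sqrt d) (b := 1) (l := 1 / 2) (u := 1) (by norm_num)
    (by exact ⟨by simpa using hs, by simpa using hs1⟩)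
    (by
      refine ⟨fun z hz => ?_, ?_⟩
      · have : z ≠ 0 := by
          intro h0
          rw [h0] at hz
          have := hz.1
          simp only [zero_re] at this
          norm_num at this
        exact (HYB_diff _ _ _ _ _ this).differentiableWithinAt
      · intro z hz
        have : z ≠ 0 := by
          apply hne
          rw [verticalClosedStrip, ← closure_Ioo (by norm_num), ← closure_preimage_re]
          exact hz
        exact (HYB_diff _ _ _ _ _ this).continuousAt.continuousWithinAt)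
    (by
      refine ⟨(d : ℝ) * d, ?_⟩
      rintro _ ⟨z, hz, rfl⟩
      have hre : 0 < z.re := lt_of_lt_of_le (by norm_num) hz.1
      simp only [Function.comp]
      refine (HYB_one hH.1 _ _).trans ?_
      have b1 : ∑ i, ‖((σ i : ℂ)) * (Y i : ℂ) ^ z‖ ≤ d := by
        calc ∑ i, ‖((σ i : ℂ)) * (Y i : ℂ) ^ z‖ ≤ ∑ _i : Fin d, (1 : ℝ) := by
              refine Finset.sum_le_sum fun i _ => ?_
              rw [norm_mul, hσ i, one_mul]
              exact Pool.Agent.helper75.BM.norm_pow_le_one (hY0 i) (hY1 i) hre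
          _ = d := by simp
      have b2 : ∑ i, ‖((τ i : ℂ)) * (X i : ℂ) ^ z‖ ≤ d := by
        calc ∑ i, ‖((τ i : ℂ)) * (X i : ℂ) ^ z‖ ≤ ∑ _i : Fin d, (1 : ℝ) := by
              refine Finset.sum_le_sum fun i _ => ?_
              rw [norm_mul, hτ i, one_mul]
              exact Pool.Agent.helper75.BM.norm_pow_le_one (hX0 i) (hX1 i) hre
          _ = d := by simp
      exact mul_le_mul b1 b2 (Finset.sum_nonneg fun _ _ => norm_nonneg _) (Nat.cast_nonneg d))
    (fun z hz => by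
      have hz' : z.re = 1 / 2 := hz
      have hn : ∀ x : ℝ, 0 ≤ x → ‖(x : ℂ) ^ z‖ ^ 2 = x := fun x hx => by
        rw [Complex.norm_cpow_eq_rpow_re_of_nonneg hx (by rw [hz']; norm_num), hz',
          ← Real.sqrt_eq_rpow, Real.sq_sqrt hx]
      refine HYB_two hHDN hH _ _ (le_of_eq ?_) (le_of_eq ?_)
      · rw [← hY]
        refine Finset.sum_congr rfl fun i _ => ?_
        rw [norm_mul, hσ i, one_mul, hn _ (hY0 i)]
      · rw [← hX]
        refine Finset.sum_congr rfl fun i _ => ?_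
        rw [norm_mul, hτ i, one_mul, hn _ (hX0 i)])
    (fun z hz => by
      have hz' : z.re = 1 := hz
      have hn : ∀ x : ℝ, 0 ≤ x → ‖(x : ℂ) ^ z‖ = x := fun x hx => by
        rw [Complex.norm_cpow_eq_rpow_re_of_nonneg hx (by rw [hz']; norm_num), hz', Real.rpow_one]
      refine (HYB_one hH.1 _ _).trans (le_of_eq ?_)
      have c1 : ∑ i, ‖((σ i : ℂ)) * (Y i : ℂ) ^ z‖ = 1 := by
        rw [← hY]
        refine Finset.sum_congr rfl fun i _ => ?_
        rw [norm_mul, hσ i, one_mul, hn _ (hY0 i)]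
      have c2 : ∑ i, ‖((τ i : ℂ)) * (X i : ℂ) ^ z‖ = 1 := by
        rw [← hX]
        refine Finset.sum_congr rfl fun i _ => ?_
        rw [norm_mul, hτ i, one_mul, hn _ (hX0 i)]
      rw [c1, c2, one_mul])
  rw [Complex.ofReal_re, Real.one_rpow, mul_one, Real.sqrt_eq_rpow,
    ← Real.rpow_mul (Nat.cast_nonneg d)] at key
  refine key.trans (le_of_eq ?_)
  congr 1
  ring

theorem t_hyb (h : HDN) : HYB := by
  intro d H hH r hr1 hr2 x y hx hy
  have hr0 : r ≠ 0 := by linarith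
  have hF := HYB_interp h hH (σ := fun i => HYB_sg (y i)) (τ := fun i => HYB_sg (x i))
    (X := fun i => |x i| ^ r) (Y := fun i => |y i| ^ r) (fun i => HYB_sg_norm _)
    (fun i => HYB_sg_norm _) (fun i => Real.rpow_nonneg (abs_nonneg _) r)
    (fun i => Real.rpow_nonneg (abs_nonneg _) r) hx hy (s := 1 / r)
    (by rw [div_le_div_iff₀ (by norm_num) (by linarith)]; linarith)
    (by rw [div_le_one (by linarith)]; exact hr1)
  have e : ∀ w : ℝ, 0 ≤ w → ((w ^ r : ℝ) : ℂ) ^ ((1 / r : ℝ) : ℂ) = (w : ℂ) := by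
    intro w hw
    rw [← Complex.ofReal_cpow (Real.rpow_nonneg hw r), ← Real.rpow_mul hw, mul_one_div_cancel hr0,
      Real.rpow_one]
  have e2 : HYB_F H (fun i => HYB_sg (y i)) (fun i => HYB_sg (x i)) (fun i => |x i| ^ r)
      (fun i => |y i| ^ r) ((1 / r : ℝ) : ℂ) = ((∑ i, y i * H.mulVec x i : ℝ) : ℂ) := by
    unfold HYB_F HYB_B
    rw [Complex.ofReal_sum]
    refine Finset.sum_congr rfl fun i _ => ?_
    beta_reduce
    rw [e _ (abs_nonneg _), ← Complex.ofReal_mul, HYB_sg_mul, Complex.ofReal_mul]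
    congr 1
    have : H.mulVec x i = ∑ j, H i j * x j := rfl
    rw [this, Complex.ofReal_sum]
    refine Finset.sum_congr rfl fun j _ => ?_
    rw [e _ (abs_nonneg _), ← Complex.ofReal_mul, HYB_sg_mul, Complex.ofReal_mul]
  rw [e2, Complex.norm_real, Real.norm_eq_abs] at hF
  exact (le_abs_self _).trans hF

end Pool.Agent.helper43.BMH
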